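import Pool.Agent.H37.CTN.Stmts

/-! Row N45 of board ctn (helper37). -/

set_option autoImplicit false

namespace Pool.CND

open Finset Polynomial

theorem n45_thm : S_N45 := by
  intro p k F L _ _ _ _ _ _ _ f q r m κ t X G₀ ρ α R w hp hchar hf hq hcard hm hR hC hA h00 hlow hhigh
  obtain ⟨hmo, hadd, hsmul, hbase, hsys, -, hprod⟩ := hA
  -- the ring homomorphism of constants
  obtain ⟨φ, hφ⟩ : ∃ φ : F →+* L, ∀ c, φ c = cst k F L c :=
    ⟨(algebraMap k L).comp (algebraMap F k), fun c => rfl⟩
  have : Fact p.Prime := ⟨hp⟩
  have hcL : CharP L p := charP_of_injective_algebraMap (algebraMap k L).injective p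
  have hφq : ∀ (c : F) (i : ℕ), φ c ^ q ^ i = φ c := by
    intro c i
    rw [← map_pow]
    congr 1
    rw [Nat.card_eq_fintype_card] at hcard
    rw [← hcard, FiniteField.pow_card_pow]
  have hpq : ∀ (x y : L) (i : ℕ), (x + y) ^ q ^ i = x ^ q ^ i + y ^ q ^ i := by
    intro x y i
    rw [hq, ← pow_mul]
    exact add_pow_char_pow x y p (f * i)
  set σ : L ≃ₐ[k] L := ρ w with hσ
  have hσφ : ∀ c, σ (φ c) = φ c := by
    intro c
    rw [hφ]
    exact σ.commutes _
  set V : Fin (r + 1) → L := lowX X with hV
  have hVX : ∀ i, V i = X (lowi m i) := fun i => rfl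
  set Dd : Fin (r + m + 1) → Fin (r + 1) → F := fun i l =>
    w.1.1 (lowi m l) i - (if lowi m l = i then 1 else 0) with hDd
  have lowi_inj : Function.Injective (lowi (r := r) m) := by
    intro i j h
    have := congrArg Fin.val h
    exact Fin.ext this
  have hσX : ∀ i, σ (X i) = X i + ∑ l, φ (Dd i l) * V l := by
    intro i
    have h1 : σ (X i) = ∑ j, φ (w.1.1 j i) * X j := by
      rw [hσ, hC.act w i]
      exact Finset.sum_congr rfl (fun j _ => by rw [hφ])
    have h2 : ∑ l, φ (Dd i l) * V l =
        ∑ j, φ (w.1.1 j i - (if j = i then 1 else 0)) * X j := by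
      apply Fintype.sum_of_injective (lowi m) lowi_inj
      · intro j hj
        have hjr : r < j.val := by
          by_contra hcon
          exact hj ⟨⟨j.val, by omega⟩, Fin.ext rfl⟩
        rw [hhigh j i hjr, sub_self, map_zero, zero_mul]
      · intro l
        rfl
    rw [h1, h2]
    have h3 : X i = ∑ j, φ (if j = i then 1 else 0) * X j := by
      rw [Finset.sum_eq_single i]
      · rw [if_pos rfl, map_one, one_mul]
      · intro j _ hj
        rw [if_neg hj, map_zero, zero_mul]
      · intro h
        exact absurd (Finset.mem_univ i) h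
    conv_rhs => rw [h3]
    rw [← Finset.sum_add_distrib]
    apply Finset.sum_congr rfl
    intro j _
    rw [map_sub]
    ring
  set b : Fin (r + 1) → F := fun i => Dd (lowi m i) 0 with hb
  have lowi0 : lowi (r := r) m 0 = 0 := Fin.ext rfl
  have hb0 : b 0 = 0 := by
    simp [hb, hDd, lowi0, h00]
  have hσV : ∀ i, σ (V i) = V i + φ (b i) * V 0 := by
    intro i
    rw [hVX, hσX]
    congr 1
    rw [Finset.sum_eq_single (0 : Fin (r + 1))]
    · intro l _ hl
      have h1 : lowi m l ≠ 0 := by
        intro h
        apply hl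
        rw [← lowi0] at h
        exact lowi_inj h
      have h2 : Dd (lowi m i) l = 0 := by
        simp only [hDd]
        rw [hlow (lowi m l) (lowi m i) (by simp only [lowi]; omega) h1, sub_self]
      rw [h2, map_zero, zero_mul]
    · intro h
      exact absurd (Finset.mem_univ _) h
  have hdet : (Matrix.of fun i j : Fin (r + 1) => V j ^ q ^ (i : ℕ)).det ≠ 0 := hmo
  -- additive maps
  have hsum : ∀ (i : Fin (r + 1)) (g : Fin (r + 1) → L), α i (∑ l, g l) = ∑ l, α i (g l) := by
    intro i g
    exact map_sum (AddMonoidHom.mk' (α i) (hadd i)) g Finset.univ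
  have hσα : ∀ (x : L) (d : Fin (r + 1) → F), σ x = x + ∑ l, φ (d l) * V l → ∀ i,
      σ (α i x) + (if i = 0 then ∑ l, φ (b l) * σ (α l x) else 0) = α i x + φ (d i) := by
    intro x d hx
    have e1 : ∀ i, α i (σ x) = α i x + φ (d i) := by
      intro i
      rw [hx, hadd, hsum]
      congr 1
      rw [Finset.sum_eq_single i]
      · rw [hφ, hsmul, hbase, if_pos rfl, mul_one]
      · intro l _ hl
        rw [hφ, hsmul, hbase, if_neg (Ne.symm hl), mul_zero]
      · intro h
        exact absurd (Finset.mem_univ i) h
    have e2 : ∀ j : Fin (r + 1), ∑ i, (σ (α i x) + (if i = 0 then ∑ l, φ (b l) * σ (α l x) else 0)) *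
        V i ^ q ^ (j : ℕ) = ∑ i, α i (σ x) * V i ^ q ^ (j : ℕ) := by
      intro j
      rw [← hsys (σ x) j (by omega)]
      have h1 := congrArg σ (hsys x j (by omega))
      rw [map_pow, map_sum] at h1
      rw [h1]
      have h2 : ∀ i, σ (α i x * V i ^ q ^ (j : ℕ)) =
          σ (α i x) * V i ^ q ^ (j : ℕ) + φ (b i) * σ (α i x) * V 0 ^ q ^ (j : ℕ) := by
        intro i
        rw [map_mul, map_pow, hσV, hpq, mul_pow, hφq]
        ring
      rw [Finset.sum_congr rfl (fun i _ => h2 i), Finset.sum_add_distrib]
      simp only [add_mul]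
      rw [Finset.sum_add_distrib]
      congr 1
      rw [Finset.sum_eq_single (0 : Fin (r + 1))]
      · rw [if_pos rfl, Finset.sum_mul]
      · intro i _ hi
        rw [if_neg hi, zero_mul]
      · intro h
        exact absurd (Finset.mem_univ _) h
    have e3 : (fun i => (σ (α i x) + (if i = 0 then ∑ l, φ (b l) * σ (α l x) else 0)) -
        α i (σ x)) = 0 := by
      apply Matrix.eq_zero_of_mulVec_eq_zero hdet
      funext j
      simp only [Matrix.mulVec, dotProduct, Matrix.of_apply, Pi.zero_apply]
      have h9 := e2 j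
      rw [← sub_eq_zero, ← Finset.sum_sub_distrib] at h9
      refine Eq.trans (Finset.sum_congr rfl (fun i _ => ?_)) h9
      ring
    intro i
    have e4 := congrFun e3 i
    simp only [Pi.zero_apply] at e4
    rw [← e1 i]
    exact sub_eq_zero.mp e4
  have htop : ∀ (j : Fin m) (l : Fin (r + 1)), Dd (topi r j) l = w.1.1 (lowi m l) (topi r j) := by
    intro j l
    simp only [hDd]
    rw [if_neg, sub_zero]
    intro h
    have := congrArg Fin.val h
    simp only [lowi, topi] at this
    omega
  refine ⟨?_, ?_, ?_, ?_⟩
  · intro i hi j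
    have h1 := hσα (X (topi r j)) (Dd (topi r j)) (hσX _) i
    rw [if_neg hi, add_zero, htop, hφ] at h1
    exact h1
  · intro hz j
    have h1 := hσα (X (topi r j)) (Dd (topi r j)) (hσX _) 0
    have h2 : ∀ l, b l = 0 := by
      intro l
      by_cases hl : l = 0
      · rw [hl]
        exact hb0
      · simp only [hb, hDd]
        rw [lowi0, hz l hl, if_neg, sub_zero]
        intro h
        apply hl
        rw [← lowi0] at h
        exact (lowi_inj h).symm
    have h3 : ∑ l, φ (b l) * σ (α l (X (topi r j))) = 0 := by
      apply Finset.sum_eq_zero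
      intro l _
      rw [h2, map_zero, zero_mul]
    rw [if_pos rfl, h3, add_zero, htop, hφ, lowi0] at h1
    exact h1
  · intro c
    set x : L := ∑ i, cst k F L (c i) * X i with hx
    set d : Fin (r + 1) → F := fun l => ∑ i, c i * Dd i l with hd
    have h1 : σ x = x + ∑ l, φ (d l) * V l := by
      rw [hx, map_sum]
      have h2 : ∀ i, σ (cst k F L (c i) * X i) =
          cst k F L (c i) * X i + ∑ l, φ (c i * Dd i l) * V l := by
        intro i
        rw [← hφ, map_mul, hσφ, hσX, mul_add, Finset.mul_sum]
        congr 1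
        apply Finset.sum_congr rfl
        intro l _
        rw [map_mul]
        ring
      rw [Finset.sum_congr rfl (fun i _ => h2 i), Finset.sum_add_distrib]
      congr 1
      rw [Finset.sum_comm]
      apply Finset.sum_congr rfl
      intro l _
      simp only [hd]
      rw [map_sum, Finset.sum_mul]
    rw [hprod x, map_prod]
    let T : (Fin (r + 1) → F) → (Fin (r + 1) → F) := fun c' j =>
      c' j + d j + (if j = 0 then ∑ l, c' l * b l else 0)
    have hT : Function.Bijective T := by
      rw [← Finite.injective_iff_bijective]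
      intro c₁ c₂ h
      have hne : ∀ j, j ≠ 0 → c₁ j = c₂ j := by
        intro j hj
        have := congrFun h j
        simp only [T] at this
        rw [if_neg hj, if_neg hj, add_zero, add_zero] at this
        exact add_right_cancel this
      have hs : ∑ l, c₁ l * b l = ∑ l, c₂ l * b l := by
        apply Finset.sum_congr rfl
        intro l _
        by_cases hl : l = 0
        · rw [hl, hb0, mul_zero, mul_zero]
        · rw [hne l hl]
      funext j
      by_cases hj : j = 0
      · have := congrFun h j
        simp only [T] at this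
        rw [if_pos hj, if_pos hj, hs] at this
        exact add_right_cancel (add_right_cancel this)
      · exact hne j hj
    rw [← hT.prod_comp (fun c' : Fin (r + 1) → F => x + ∑ j, cst k F L (c' j) * V j)]
    apply Finset.prod_congr rfl
    intro c' _
    rw [map_add, h1, add_assoc]
    congr 1
    rw [map_sum]
    have h4 : ∀ j, σ (cst k F L (c' j) * V j) = φ (c' j) * V j + φ (c' j * b j) * V 0 := by
      intro j
      rw [← hφ, map_mul, hσφ, hσV, map_mul]
      ring
    rw [Finset.sum_congr rfl (fun j _ => h4 j), Finset.sum_add_distrib]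
    have h5 : ∑ j, cst k F L (T c' j) * V j =
        ∑ j, (φ (c' j) * V j + φ (d j) * V j +
          (if j = 0 then φ (∑ l, c' l * b l) * V 0 else 0)) := by
      apply Finset.sum_congr rfl
      intro j _
      rw [← hφ]
      simp only [T]
      rw [map_add, map_add]
      by_cases hj : j = 0
      · rw [if_pos hj, if_pos hj, hj]
        ring
      · rw [if_neg hj, if_neg hj, map_zero]
        ring
    rw [h5, Finset.sum_add_distrib, Finset.sum_add_distrib, Finset.sum_ite_eq' Finset.univ (0 : Fin (r + 1)),
      if_pos (Finset.mem_univ _), map_sum, Finset.sum_mul]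
    ring
  · show σ (Matrix.of fun i j : Fin (r + 1) => V j ^ q ^ (i : ℕ)).det =
      (Matrix.of fun i j : Fin (r + 1) => V j ^ q ^ (i : ℕ)).det
    have h1 : σ (Matrix.of fun i j : Fin (r + 1) => V j ^ q ^ (i : ℕ)).det =
        ((σ : L →+* L).mapMatrix (Matrix.of fun i j : Fin (r + 1) => V j ^ q ^ (i : ℕ))).det :=
      (σ : L →+* L).map_det _
    rw [h1, ← Matrix.det_transpose, ← Matrix.det_transpose (Matrix.of _)]
    apply Matrix.det_eq_of_forall_row_eq_smul_add_const (fun j => φ (b j)) 0
    · rw [hb0, map_zero]
    · intro j i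
      simp only [RingHom.mapMatrix_apply, Matrix.map_apply, Matrix.of_apply, Matrix.transpose_apply]
      show σ (V j ^ q ^ (i : ℕ)) = _
      rw [map_pow, hσV, hpq, mul_pow, hφq]

end Pool.CND
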